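import Pool.Agent.Helper53.WR.Defs
import Pool.Agent.Helper52.WR.A1
import Pool.Agent.Helper82.WR.SigmaExists
import Pool.Agent.Helper87.WR.A3

set_option autoImplicit false
set_option linter.unusedVariables false

namespace Pool.Agent.Helper53.WR.St

open Finset
open Pool.Agent.Helper3.Thin (dig und off Lab GoodSet)

/-- WR-A1 (random shifts τ). -/
theorem tau_exists {q : ℕ} [Fact q.Prime] (Γ : Finset (ZMod q × ZMod q)) (hΓ : Γ.card ≤ 3 * q)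
    {J : Type} (s : Finset J) (w : J → ZMod q × ZMod q → ZMod q × ZMod q → ℝ) (m : J → ℝ) (x : ℕ)
    (hw : ∀ j ∈ s, ∀ u v, 0 ≤ w j u v) (hm : ∀ j ∈ s, ∀ u, ∑ v, w j u v ≤ m j)
    (hx : (s.card : ℝ) * 2 ^ 13 < 2 ^ x) :
    ∃ τ : ZMod q × ZMod q → ZMod q × ZMod q, ∀ j ∈ s,
      ∑ u ∈ Γ, ∑ z ∈ Γ, w j u (z + τ u) ≤ x * m j := by
  exact Pool.Agent.Helper52.WR.tau_exists Γ hΓ s w m x hw hm hx

/-- WR-A2 (random shifts σ). -/
theorem sigma_exists {ι : Type} [Fintype ι] [DecidableEq ι] (S : ℕ) (hS : 0 < S)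
    {J : Type} (s : Finset J) (B : J → ι → Finset ℕ) (hB : ∀ j ∈ s, ∀ i, B j i ⊆ range S)
    (μ A : J → ℝ) (y : J → ℕ) (hA : ∀ j ∈ s, 1 ≤ A j)
    (hμ : ∀ j ∈ s, ∑ i, ((B j i).card : ℝ) ≤ μ j * S)
    (hsum : ∑ j ∈ s, Real.exp (A j * μ j) / A j ^ y j < 1) :
    ∃ σ : ι → ℕ, (∀ i, σ i < S) ∧
      ∀ j ∈ s, (univ.filter (fun i => σ i ∈ B j i)).card < y j := by
  exact Pool.Agent.Helper82.WR.sigma_exists S hS s B hB μ A y hA hμ hsum

/-- WR-A3 (mass of a residue class). -/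
theorem mass_bound {q : ℕ} [Fact q.Prime] (T : Finset ℕ) (S m : ℕ) (hS : 0 < S) (hm : 0 < m)
    (hc : Nat.Coprime q m) (r : ℕ) (u : ZMod q × ZMod q) :
    ∑ v : ZMod q × ZMod q, ((((range S) ×ˢ T).filter
        (fun x => (und u v + q ^ 4 * (S + x.1 + x.2)) % m = r % m)).card : ℝ)
      ≤ T.card * ((q : ℝ) ^ 2 * S / m + 1) := by
  exact Pool.Agent.Helper87.WR.mass_bound T S m hS hm hc r u

end Pool.Agent.Helper53.WR.St
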