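import Pool.Agent.Helper53.WR.OneWorld

set_option autoImplicit false
set_option linter.unusedVariables false

namespace Pool.Agent.Helper53.WR.St

open Finset Filter
open Pool.Agent.Helper53.WR

/-- WR-E1 (one world, all parameters fixed). -/
theorem world_k {M G : ℕ} {f : ℕ → ℕ} {k : ℕ} (h : Num M G f k) (q : ℕ → ℕ)
    (hq : ∀ i, (q i).Prime ∧ 2 ^ (i ^ M) < q i ∧ q i ≤ 2 ^ (i ^ M + 1))
    (T O : Finset ℕ) (hT : ∀ t ∈ T, t < 2 ^ laP M k) (hf : ∀ n, repF T n ≤ f k)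
    (hO : ∀ o ∈ O, o < 2 ^ (4 * k ^ M + 8 * uP M k))
    (hH : ∀ r, (O.filter (fun o => o % (q k) ^ 2 = r)).card
      ≤ 1 + k * (4096 * 2 ^ (4 * uP M k + 4 * k ^ G)))
    (hD : ∀ r, (O.filter (fun o => o % (q k) ^ 4 = r)).card ≤ 1 + k * (4096 * (8 * k))) :
    ∃ A : Finset ℕ,
      (∀ b ∈ A, 2 ^ (4 * k ^ M + thP M G k) ≤ b ∧ b < 2 ^ (4 * (k + 1) ^ M + 8 * uP M (k + 1))) ∧
      (∀ n, repF A n ≤ 4096 ^ 2 * 2592 * f k) ∧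
      (∀ j, 4 * k ^ M + thP M G k + 8 ≤ j → j + 1 ≤ 4 * k ^ M + laP M k →
        (∀ i, i ≤ 5 → CovBlock (T : Set ℕ) (j - 4 * k ^ M - i)) → CovBlock (A : Set ℕ) j) ∧
      (∀ i, k < i → i ^ M ≤ 3 * k ^ M → ∀ r,
        (A.filter (fun b => b % (q i) ^ 2 = r)).card ≤ 4096 * 2 ^ (4 * uP M i + 4 * i ^ G)) ∧
      (∀ i, k < i → i ^ M ≤ 3 * k ^ M → ∀ r,
        (A.filter (fun b => b % (q i) ^ 4 = r)).card ≤ 4096 * (8 * k)) ∧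
      (∀ n, ((A ×ˢ O).filter (fun z => z.1 + z.2 = n)).card
        ≤ 4096 * (k ^ (M - G) * (2 ^ 15 * k ^ 2 + 1))) := by
  exact Pool.Agent.Helper53.WR.world_k h q hq T O hT hf hO hH hD

end Pool.Agent.Helper53.WR.St
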