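import Pool.Agent.Helper53.WR.Tower

set_option autoImplicit false
set_option linter.unusedVariables false

namespace Pool.Agent.Helper53.WR.St

open Finset Filter
open Pool.Agent.Helper53.WR

/-- WR2-1 (the union of all worlds, general parameters; helper53). -/
theorem tower {a u e t κ f : ℕ → ℕ} (h : Tow a u e t κ f) (T : ℕ → Finset ℕ)
    (hT : ∀ k, ∀ x ∈ T k, x < 2 ^ laT u k) (hf : ∀ k n, repF (T k) n ≤ f k) :
    ∃ A : Set ℕ, (∀ n, n < 2 ^ (4 * a 0 + thT u e 0) → rep A n = 0) ∧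
      (∀ k n, 2 ^ (4 * a k + thT u e k) ≤ n → n < 2 ^ (4 * a (k + 1) + thT u e (k + 1)) →
        rep A n ≤ 4096 ^ 2 * 2592 * f k + 2 * (4096 * (t k * (1 + k * (4096 * (8 * κ k)))))) ∧
      (∀ k j, 4 * a k + thT u e k + 8 ≤ j → j + 1 ≤ 4 * a k + laT u k →
        (∀ i, i ≤ 5 → CovBlock (T k : Set ℕ) (j - 4 * a k - i)) → CovBlock A j) := by
  exact Pool.Agent.Helper53.WR.tower h T hT hf

/-- WR2-2 (finite theorem; helper48). -/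
theorem finite_thm : ∃ c s0 : ℕ, ∀ s, s0 ≤ s → ∀ J R : ℕ, J ≤ 2 ^ (s ^ 2) → 2 ^ (c * s) ≤ R →
    FinB J (R * 2 ^ (c * s)) (J * 2 ^ (c * s) / R) := by
  sorry

/-- WR2-3 (infinite theorem; helper63). -/
theorem infinite_thm (ρ : ℝ) (hρ0 : 0 ≤ ρ) (hρ1 : ρ < 1) :
    ∃ A : Set ℕ, (∃ C : ℝ, ∀ l : ℕ, 2 ≤ l → ∀ n : ℕ, n < 2 ^ l →
      (rep A n : ℝ) ≤ C * (l : ℝ) ^ ρ * Real.exp (C * √(Real.log l))) ∧
      ∀ᶠ J : ℕ in atTop, (badCount A J : ℝ) ≤ (J : ℝ) ^ (1 - ρ) * Real.exp (-√(Real.log J)) := by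
  sorry

end Pool.Agent.Helper53.WR.St
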